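import Pool.Agent.H81.TE.All
import Pool.Agent.H62.EX.Done
import Pool.Agent.H40.EX.A1
import Pool.Agent.H81.TE.Share

/-!
# The rank conjecture for the forms of `y² + y = x³` over the subfields of cyclic `3`-power extensions of `ℚ(√-3)`

Let `F = ℚ(√-3)` and let `K/F` be a Galois extension of degree `3 ^ n`, `n ≥ 1`, unramified outside the prime
elements `π` in a finite set `S`, such that either

(a) `S = {π}`, `π ≡ 1` modulo `3` and `π ≢ 1` modulo `9` (then `K/F` is necessarily cyclic), or

(b) `K/F` is cyclic, `K` has one prime above three and is totally ramified at the `π` in `S`, `π ≡ 1` modulo `3 √-3`, and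
`N(π) ≡ 1` modulo `3 ^ (n + 1)` if `n ≠ 1`, and (R): a product of powers of the `π` that is a cube in the
completions of `K` at the primes above the `π` is a cube in `K`.

Theorem (Q1 for all these curves): let `F ⊆ k ⊆ K` be an intermediate field, and let `E` be any elliptic curve over `k`
which becomes isomorphic to `y² + y = x³` over `K`.  Then `E(k)` is finite, and `L(E/k, s)` continues
analytically from `Re s > 3/2` to a connected open set which contains `1`, with `L(E/k, 1) ≠ 0`.

There are infinitely many such `K` for every degree `3 ^ n` and every number of ramified primes (part (2)).  If `k ≠ K`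
then the curves `E` are, up to isomorphism over `k`, three curves `y² + δ y = x³` (`δ` a cube in `K`).  They
have complex multiplication, `k` is in general not abelian over `ℚ`, and its degree is not bounded.

A positive proportion (part (3)): let `e 0, .., e m` be prime to three.  For more than a third of all tuples of `m + 1`
different primes `q i` of `F` with norms `N(q i) ≡ 1` modulo `3 ^ (n + 1)` (in the sense of an iterated limit) there is such
a field `K` of degree `3 ^ n`, ramified exactly at the `q i`, which contains a cube root of `δ = ∏ a i ^ e i`, `a i ≡ 1`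
modulo `3 √-3` the generator of `q i`; and the rank conjecture is true, with rank zero, for the curve
`y² + δ y = x³` over `F` itself.  Over `F` this is the curve `X³ + Y³ = δ` (both are `Y² = X³ + 16 δ²`).

Proof.  For `E₀ : y² + y = x³` over `K` itself: `E₀(K)` is finite and `L(E₀/K, 1) ≠ 0` (helper62, helper40, helper47,
helper81, for MP_f50388; in case (b) the Tate-Shafarevich group of `E₀/K` has `9 ^ (|S| - 1)` elements of order
dividing three, and the `L`-value is a unit times a high power of `√-3`, by a congruence with a minor of the Laplace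
matrix of the cubic residue symbols).  Let `ψ` be the Hecke character of `E₀` over `F`.  Then `L(E₀/K, s)`
is the product of `L(ψ χ, s)` and its conjugate over all characters `χ` of `Gal(K/F)`, so that
`L(ψ χ, 1) ≠ 0` for all of them (class field theory: library, helper62 and the files `Art`, `Psi`).  A form `E` of `E₀`
over `k` is a cubic twist `y² + δ y = x³` (`Form`), its numbers of points modulo the primes are given by the Jacobi sum
and the cubic residue symbol of `δ` (`Cub`, `Loc`), and therefore its Hecke character is `(ψ θ) ∘ N_{k/F}` where `θ`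
is a character of `Gal(K/F)` which extends the square of the Kummer character of `δ` (`Tws`, `Tw2`).  So
`L(E/k, s)` is the product of functions `L(ψ χ, s)` and their conjugates, too (`Cmp`, `Ord`).
-/

set_option autoImplicit false

namespace Pool.Agent.Results.MP_32c55d_nt.CyclicThreeExtensions

open NumberField IsDedekindDomain WeierstrassCurve
open scoped Classical

/-- (R): a product of powers of the elements of `S` that is a cube in the completions of `K` at all the primes
above the elements of `S` is a cube in `K`. -/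
def LocalCubes (F K : Type) [Field F] [NumberField F] [Field K] [NumberField K] [Algebra F K]
    (S : Finset (𝓞 F)) : Prop :=
  ∀ x : 𝓞 F → ℕ,
    (∀ v : HeightOneSpectrum (𝓞 K), (∃ π ∈ S, algebraMap (𝓞 F) (𝓞 K) π ∈ v.asIdeal) →
      ∃ y : v.adicCompletion K,
        y ^ 3 = algebraMap K (v.adicCompletion K) (algebraMap F K (∏ π ∈ S, π ^ x π : 𝓞 F))) →
    ∃ z : K, z ^ 3 = algebraMap F K (∏ π ∈ S, π ^ x π : 𝓞 F)

/-- Case (a): there is only one prime element `π` in `S`, `π ≡ 1` modulo `3` and `π ≢ 1` modulo `9`.  (`K / F` is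
then necessarily cyclic, totally ramified at `π`, with one prime above three.) -/
def OnePrime (F : Type) [Field F] [NumberField F] (S : Finset (𝓞 F)) : Prop :=
  ∃ π : 𝓞 F, S = {π} ∧ Prime π ∧ 3 ∣ π - 1 ∧ ¬ 9 ∣ π - 1

/-- Case (b): `S` is a nonempty set of prime elements `π`, `π ≡ 1` modulo `3 √-3`, and `N(π) ≡ 1` modulo
`3 ^ (n + 1)` if `n ≠ 1`; `K / F` is cyclic, totally ramified at the `π`, `K` has one prime above three, and
(R) holds. -/
structure SeveralPrimes (F K : Type) [Field F] [NumberField F] [Field K] [NumberField K] [Algebra F K]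
    (n : ℕ) (S : Finset (𝓞 F)) : Prop where
  cyclic : IsCyclic Gal(K/F)
  nonempty : S.Nonempty
  prime : ∀ π ∈ S, Prime π
  congr : ∀ π ∈ S, ∀ θ : 𝓞 F, θ ^ 2 = -3 → 3 * θ ∣ π - 1
  norm : n ≠ 1 → ∀ π ∈ S, 3 ^ (n + 1) ∣ Ideal.absNorm (Ideal.span {π}) - 1
  totallyRamified : ∀ π ∈ S, ∀ v : HeightOneSpectrum (𝓞 K), algebraMap (𝓞 F) (𝓞 K) π ∈ v.asIdeal →
    ∀ (g : Gal(K/F)) (x : 𝓞 K), g • x - x ∈ v.asIdeal
  one_prime_above_three : ∀ v w : HeightOneSpectrum (𝓞 K), 3 ∈ v.asIdeal → 3 ∈ w.asIdeal → v = w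
  localCubes : LocalCubes F K S

/-- `E` becomes isomorphic to `y² + y = x³` over `K`: some change of variables over `K` takes it to this
equation. -/
def IsForm (k K : Type) [Field k] [Field K] [Algebra k K] (E : WeierstrassCurve k) : Prop :=
  ∃ C : VariableChange K, C • E.map (algebraMap k K) = ⟨0, 0, 1, 0, 0⟩

/-- The rank conjecture for `E` over `k`, of rank zero: `E(k)` is finite, and `L(E/k, s)` (Mathlib's
`WeierstrassCurve.LSeries`) has an analytic continuation `Φ` from `Re s > 3/2` to a connected open set `U`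
which contains `1`, and `Φ(1) ≠ 0`. -/
def RankZeroBSD {k : Type} [Field k] [NumberField k] (E : WeierstrassCurve k) : Prop :=
  Finite E.toAffine.Point ∧ ∃ (U : Set ℂ) (Φ : ℂ → ℂ),
    IsOpen U ∧ IsConnected U ∧ {s : ℂ | (3 / 2 : ℝ) < s.re} ⊆ U ∧ (1 : ℂ) ∈ U ∧
    AnalyticOnNhd ℂ Φ U ∧ (∀ s : ℂ, (3 / 2 : ℝ) < s.re → Φ s = E.LSeries s) ∧ Φ 1 ≠ 0

/-- The tuples of `m + 1` different primes `q i` of `F` with `N(q i) ≡ 1` modulo `3 ^ (n + 1)` and `N(q i) ≤ X i`. -/
def Tuples (F : Type) [Field F] [NumberField F] (n m : ℕ) (X : Fin (m + 1) → ℕ) :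
    Set (Fin (m + 1) → HeightOneSpectrum (𝓞 F)) :=
  {q | Function.Injective q ∧ ∀ i, 3 ^ (n + 1) ∣ Ideal.absNorm (q i).asIdeal - 1 ∧
    Ideal.absNorm (q i).asIdeal ≤ X i}

/-- For all large `X 0`, for all `X 1` large in terms of `X 0`, for all `X 2` large in terms of `X 0`, `X 1`, and so on,
`P X` is true. -/
def Nested : (m : ℕ) → ((Fin m → ℕ) → Prop) → Prop
  | 0, P => P Fin.elim0
  | m + 1, P => Nested m fun X => ∀ᶠ x : ℕ in Filter.atTop, P (Fin.snoc (α := fun _ => ℕ) X x)

/-- For `a i ≡ 1` modulo `3 √-3`, the generator of the prime `q i`: there is a Galois extension `K/F` of degree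
`3 ^ n`, ramified exactly at the `q i`, as in (b), which contains a cube root of `δ = ∏ a i ^ e i`; and the rank
conjecture, with rank zero, is true for the curve `y² + δ y = x³` over `F`. -/
def Good (F : Type) [Field F] [NumberField F] (n m : ℕ) (e : Fin (m + 1) → ℕ)
    (q : Fin (m + 1) → HeightOneSpectrum (𝓞 F)) : Prop :=
  ∃ a : Fin (m + 1) → 𝓞 F, (∀ i, (q i).asIdeal = Ideal.span {a i} ∧ ∃ θ : 𝓞 F, θ ^ 2 = -3 ∧ 3 * θ ∣ a i - 1) ∧
    (∃ (K : Type) (_ : Field K) (_ : NumberField K) (_ : Algebra F K), IsGalois F K ∧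
      Module.finrank F K = 3 ^ n ∧
      (∀ w : HeightOneSpectrum (𝓞 K), (∀ i, algebraMap (𝓞 F) (𝓞 K) (a i) ∉ w.asIdeal) →
        Algebra.IsUnramifiedAt (𝓞 F) w.asIdeal) ∧
      SeveralPrimes F K n (Finset.univ.image a) ∧
      ∃ b : K, b ^ 3 = algebraMap F K ((∏ i, a i ^ e i : 𝓞 F) : F)) ∧
    RankZeroBSD (⟨0, 0, ((∏ i, a i ^ e i : 𝓞 F) : F), 0, 0⟩ : WeierstrassCurve F)

lemma cases_iff {F K : Type} [Field F] [NumberField F] [Field K] [NumberField K] [Algebra F K]
    {n : ℕ} {S : Finset (𝓞 F)} (h : OnePrime F S ∨ SeveralPrimes F K n S) :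
    Pool.Agent.H81.TE.OnePrime F S ∨ Pool.Agent.H81.TE.SeveralPrimes F K n S := by
  rcases h with h | h
  · exact Or.inl h
  · exact Or.inr ⟨h.cyclic, h.nonempty, h.prime, h.congr, h.norm, h.totallyRamified,
      h.one_prime_above_three, h.localCubes⟩

/-- part (1) -/
theorem main (F K : Type) [Field F] [NumberField F] [IsCyclotomicExtension {3} ℚ F] [Field K]
    [NumberField K] [Algebra F K] [IsGalois F K] (n : ℕ) (S : Finset (𝓞 F)) (hn0 : n ≠ 0)
    (hn : Module.finrank F K = 3 ^ n)
    (hunr : ∀ w : HeightOneSpectrum (𝓞 K), (∀ π ∈ S, algebraMap (𝓞 F) (𝓞 K) π ∉ w.asIdeal) →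
      Algebra.IsUnramifiedAt (𝓞 F) w.asIdeal)
    (hS : OnePrime F S ∨ SeveralPrimes F K n S)
    (k : Type) [Field k] [NumberField k] [Algebra F k] [Algebra k K] [IsScalarTower F k K]
    (E : WeierstrassCurve k) (hE : IsForm k K E) : RankZeroBSD E := by
  obtain ⟨C, hC⟩ := hE
  obtain ⟨hfin, L, a1, a2, a3, a4⟩ :=
    Pool.Agent.H81.TE.forms F K n hn0 hn S hunr (cases_iff hS) k E C hC
  obtain ⟨U, b1, b2, b3, b4, b5, b6⟩ :=
    Pool.Agent.H81.TE.cont (L := E.LSeries) a1 (fun s => rfl) a2 a3
  exact ⟨hfin, U, L, b1, b2, b3, b4, b5, b6, a4⟩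

/-- the cubic twist becomes isomorphic to the curve when `δ` is a cube -/
theorem form_cube {F K : Type} [Field F] [Field K] [Algebra F K] {δ : F} (hδ : δ ≠ 0) {b : K}
    (hb : b ^ 3 = algebraMap F K δ) : IsForm F K ⟨0, 0, δ, 0, 0⟩ := by
  have hb0 : b ≠ 0 := by
    rintro rfl
    rw [zero_pow (by norm_num)] at hb
    exact hδ ((map_eq_zero (algebraMap F K)).1 hb.symm)
  refine ⟨⟨Units.mk0 b hb0, 0, 0, 0⟩, ?_⟩
  have h1 : (b⁻¹) ^ 3 * algebraMap F K δ = 1 := by
    rw [← hb, ← mul_pow, inv_mul_cancel₀ hb0, one_pow]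
  ext
  · simp [WeierstrassCurve.map, WeierstrassCurve.variableChange_def]
  · simp [WeierstrassCurve.map, WeierstrassCurve.variableChange_def]
  · rw [← h1]
    simp [WeierstrassCurve.map, WeierstrassCurve.variableChange_def]
  · simp [WeierstrassCurve.map, WeierstrassCurve.variableChange_def]
  · simp [WeierstrassCurve.map, WeierstrassCurve.variableChange_def]

theorem nested_iff : ∀ (m : ℕ) (P : (Fin m → ℕ) → Prop), Nested m P ↔ Pool.Agent.Q283.LQ.Nest m P
  | 0, _ => Iff.rfl
  | m + 1, _ => nested_iff m _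

/-- **Main theorem.** (1) Let `F = ℚ(√-3)`, let `K/F` be a Galois extension of degree `3 ^ n`, `n ≥ 1`, which is
unramified outside the prime elements in the finite set `S`, and suppose that (a) or (b) holds.  Let
`F ⊆ k ⊆ K` be an intermediate field, and let `E` be an elliptic curve over `k` that becomes isomorphic to
`y² + y = x³` over `K`.  Then the rank conjecture is true for `E` over `k`: `E(k)` is finite, and `L(E/k, s)`
continues analytically from `Re s > 3/2` to a connected open set which contains `1`, with `L(E/k, 1) ≠ 0`.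
(2) There are infinitely many such fields, for every degree `3 ^ n` and every number `m + 1` of ramified primes: for
all `n ≥ 1`, `m` and `B` there are `K` and `S` with `m + 1` elements, whose norms are `> B`, as in (1), (b); for
`m = 0` they are as in (1), (a), too.
(3) A positive proportion: let `e 0, .., e m` be prime to three.  More than a third of the tuples of `m + 1` different
primes `q i` of `F` with `N(q i) ≡ 1` modulo `3 ^ (n + 1)` are good: they are the primes ramified in such a field `K` of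
degree `3 ^ n`, which contains a cube root of `δ = ∏ a i ^ e i`, `a i ≡ 1` modulo `3 √-3` the generator of `q i`, and the
rank conjecture, with rank zero, is true for the curve `y² + δ y = x³` over `F`. -/
theorem result :
    (∀ (F K : Type) [Field F] [NumberField F] [IsCyclotomicExtension {3} ℚ F] [Field K]
      [NumberField K] [Algebra F K] [IsGalois F K] (n : ℕ) (S : Finset (𝓞 F)), n ≠ 0 →
      Module.finrank F K = 3 ^ n →
      (∀ w : HeightOneSpectrum (𝓞 K), (∀ π ∈ S, algebraMap (𝓞 F) (𝓞 K) π ∉ w.asIdeal) →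
        Algebra.IsUnramifiedAt (𝓞 F) w.asIdeal) →
      OnePrime F S ∨ SeveralPrimes F K n S →
      ∀ (k : Type) [Field k] [NumberField k] [Algebra F k] [Algebra k K] [IsScalarTower F k K]
        (E : WeierstrassCurve k), IsForm k K E → RankZeroBSD E) ∧
    (∀ (F : Type) [Field F] [NumberField F] [IsCyclotomicExtension {3} ℚ F] (n m B : ℕ), n ≠ 0 →
      ∃ (K : Type) (_ : Field K) (_ : NumberField K) (_ : Algebra F K) (_ : IsGalois F K)
        (S : Finset (𝓞 F)), Module.finrank F K = 3 ^ n ∧ S.card = m + 1 ∧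
        (∀ π ∈ S, B < Ideal.absNorm (Ideal.span {π})) ∧
        (∀ w : HeightOneSpectrum (𝓞 K), (∀ π ∈ S, algebraMap (𝓞 F) (𝓞 K) π ∉ w.asIdeal) →
          Algebra.IsUnramifiedAt (𝓞 F) w.asIdeal) ∧
        SeveralPrimes F K n S ∧ (m = 0 → OnePrime F S)) ∧
    ∀ (F : Type) [Field F] [NumberField F] [IsCyclotomicExtension {3} ℚ F] (n m : ℕ), n ≠ 0 →
      ∀ e : Fin (m + 1) → ℕ, (∀ i, ¬ 3 ∣ e i) → Nested (m + 1) fun X =>
        (Tuples F n m X).Finite ∧ 0 < (Tuples F n m X).ncard ∧
          (Tuples F n m X).ncard < 3 * {q ∈ Tuples F n m X | Good F n m e q}.ncard := by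
  refine ⟨?_, ?_, ?_⟩
  · intro F K _ _ _ _ _ _ _ n S hn0 hn hunr hS k _ _ _ _ _ E hE
    exact main F K n S hn0 hn hunr hS k E hE
  · intro F _ _ _ n m B hn0
    obtain ⟨θ, hθ⟩ : ∃ θ : 𝓞 F, θ ^ 2 = -3 := by
      obtain ⟨ζ, hζ⟩ := IsCyclotomicExtension.exists_isPrimitiveRoot ℚ F
        (Set.mem_singleton 3) (by norm_num)
      exact ⟨2 * hζ.toInteger + 1, by linear_combination 4 * Pool.Agent.H62.zI hζ⟩
    obtain ⟨K, _, _, _, hgal, S, h1, h2, h3, h4, h5, h6, h7, h8⟩ :=
      Pool.Agent.H62.EX.goal Pool.Agent.H40.EX.sA1 F θ hθ n m B hn0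
    refine ⟨K, inferInstance, inferInstance, inferInstance, hgal, S, h2, h3,
      fun π hπ => (h4 π hπ).2.2.2.1, h5, ⟨h1, ?_, fun π hπ => (h4 π hπ).1, fun π hπ θ' hθ' => ?_,
        fun _ π hπ => (h4 π hπ).2.2.1, h6, h7, h8⟩, fun hk => ?_⟩
    · rw [← Finset.card_pos, h3]
      omega
    · have h5 : (θ' - θ) * (θ' + θ) = 0 := by linear_combination hθ' - hθ
      have h9 := (h4 π hπ).2.1
      rcases mul_eq_zero.1 h5 with h6 | h6
      · rwa [sub_eq_zero.1 h6]
      · rw [eq_neg_of_add_eq_zero_left h6, mul_neg, neg_dvd]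
        exact h9
    · subst hk
      obtain ⟨π, hπ⟩ := Finset.card_eq_one.1 h3
      have hm : π ∈ S := by rw [hπ]; exact Finset.mem_singleton_self π
      obtain ⟨p1, p2, -, -, p3⟩ := h4 π hm
      exact ⟨π, hπ, p1, (dvd_mul_right _ _).trans p2, p3 rfl⟩
  · intro F _ _ _ n m hn0 e he
    obtain ⟨θ, hθ⟩ : ∃ θ : 𝓞 F, θ ^ 2 = -3 := by
      obtain ⟨ζ, hζ⟩ := IsCyclotomicExtension.exists_isPrimitiveRoot ℚ F
        (Set.mem_singleton 3) (by norm_num)
      exact ⟨2 * hζ.toInteger + 1, by linear_combination 4 * Pool.Agent.H62.zI hζ⟩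
    rw [nested_iff]
    refine Pool.Agent.Q14.LK.nest_mono (m + 1) (fun X hX => ?_) (Pool.Agent.H81.TE.share hθ hn0 m e he)
    obtain ⟨h1, h2, h3⟩ := hX
    have h1' : (Tuples F n m X).Finite := h1
    refine ⟨h1, h2, lt_of_lt_of_le h3 (Nat.mul_le_mul_left 3 (Set.ncard_le_ncard ?_ (h1'.subset fun q hq => hq.1)))⟩
    rintro q ⟨hq, a, ha, K, _, _, _, hdeg, ⟨b, hb⟩, k1, k2, k3, k4, k5, k6, k7⟩
    have hq' : q ∈ Tuples F n m X := hq
    have hSev : SeveralPrimes F K n (Finset.univ.image a) := by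
      refine ⟨k2, ⟨a 0, Finset.mem_image_of_mem _ (Finset.mem_univ _)⟩, fun π hπ => ?_, fun π hπ θ' hθ' => ?_,
        fun _ π hπ => ?_, k5, k6, k7⟩
      · obtain ⟨i, -, rfl⟩ := Finset.mem_image.1 hπ
        exact (ha i).2.1
      · obtain ⟨i, -, rfl⟩ := Finset.mem_image.1 hπ
        have h5 : (θ' - θ) * (θ' + θ) = 0 := by linear_combination hθ' - hθ
        rcases mul_eq_zero.1 h5 with h6 | h6
        · rw [sub_eq_zero.1 h6]
          exact (ha i).2.2
        · rw [eq_neg_of_add_eq_zero_left h6, mul_neg, neg_dvd]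
          exact (ha i).2.2
      · obtain ⟨i, -, rfl⟩ := Finset.mem_image.1 hπ
        rw [← (ha i).1]
        exact (hq'.2 i).1
    have hδ : ((∏ i, a i ^ e i : 𝓞 F) : F) ≠ 0 := by
      have h5 : (∏ i, a i ^ e i : 𝓞 F) ≠ 0 :=
        Finset.prod_ne_zero_iff.2 fun i _ => pow_ne_zero _ (ha i).2.1.ne_zero
      intro h6
      exact h5 (RingOfIntegers.coe_injective (h6.trans (map_zero _).symm))
    refine ⟨hq', a, fun i => ⟨(ha i).1, θ, hθ, (ha i).2.2⟩, ⟨K, inferInstance, inferInstance, inferInstance,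
      k1, hdeg, fun w hw => k4 w fun π hπ => ?_, hSev, b, hb⟩, ?_⟩
    · obtain ⟨i, -, rfl⟩ := Finset.mem_image.1 hπ
      exact hw i
    · exact main F K n (Finset.univ.image a) hn0 hdeg k4 (Or.inr hSev) F _ (form_cube hδ hb)

end Pool.Agent.Results.MP_32c55d_nt.CyclicThreeExtensions
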