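import Pool.Agent.H98.R.Main
import Pool.Agent.H98.W.Ord
import Pool.Agent.H98.Y.Twr

/-!
# The Birch and Swinnerton-Dyer rank conjecture for the forms of `y² = x³ + 16 d³`, where `d = ± q` and
# `q` is any prime number congruent to two modulo three, over number fields of unbounded degree

Let `q ≡ 2 (mod 3)` be ANY odd prime number and `d = ± q ≡ 1 (mod 4)`; let `E_d` be the curve
`y² = x³ + 16 d³`, the quadratic twist by `d` of the curve `y² + y = x³`.  The root number of `E_d` over `ℚ`
is `-1`.  Let `M = ℚ(√-3)` and let `L/M` be ANY Galois extension whose degree is a power of two, in which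
the primes of `M` do not ramify that are not above three and modulo which `2` is a cube.  Let
`k ⊆ K ⊆ L` be ANY intermediate fields with `√-3 ∈ k` such that `q` is inert in `K`, and `E` ANY elliptic
curve over `k` which becomes isomorphic to `E_d` over `K`.

* If `E` is not isomorphic to `E_d` over `k`, then `E(k)` is finite and the L-series of `E/k` continues
  analytically to `1`, where it does not vanish.
* If `E` is isomorphic to `E_d` over `k`, then the rank of `E(k)` and the order of vanishing at `1` of the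
  L-series of `E/k` do not depend on the fields `k ⊆ K ⊆ L`: they are `2 ρ` and `2 m`, with `ρ ≤ 1` and `m`
  odd which depend only on `d`.  (For `k = K = L = M`: they are the rank and the order of `E_d` over
  `ℚ(√-3)`.)

There are many such fields: for `n ≥ 1` and at least a third of the primes `v` of `M` with `N(v) ≡ 1` modulo
`2 ^ (n + 1)` there is such a field `K = L`, cyclic of degree `2 ^ n` over `M`, totally ramified at `v` and unramified at the
other primes.

So the rank part of the conjecture holds for all the forms of the first kind, and for the forms of the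
second kind over ALL the fields it is equivalent to the one for `E_d` over `ℚ(√-3)`.

The proof.  The analytic half: the central values of the L-functions of `y² + y = x³` twisted by the
quadratic characters with one bad prime (a prime modulo which `2` is a cube) satisfy a congruence modulo
four above two, and this gives the non-vanishing of the new part of the L-function of `E_d` along every
quadratic step of the tower.  The algebraic half is a 2-descent in the field of the cube root `π` of two: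
the class modulo squares of an anti-invariant point whose `x` is divisible by `q` would be, over a
quadratic step, the class of `d (a + b π + c π²)`, where `a + b π + c π²` has norm `d` and `b` is even; such
elements exist for all `q` (pigeonhole and descent), and a reciprocity law for them
(`b² - a c` is a square modulo `q`) excludes it.
-/

set_option autoImplicit false

open NumberField IsDedekindDomain
open scoped Classical

namespace Pool.Agent.Results.MP_32c55d_nt.InertPrimeTwists

/-- above the prime numbers other than three, only primes modulo which `2` is not a cube ramify in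
`L/M`: if `σ ≠ 1` lies in the inertia group of the prime `w` of `L`, and `w` does not divide three, then
`2` is not a cube modulo the prime of `M` below `w` -/
def GoodRam (M L : Type) [Field M] [NumberField M] [Field L] [NumberField L] [Algebra M L] : Prop :=
  ∀ (w : HeightOneSpectrum (𝓞 L)) (σ : Gal(L/M)), (3 : 𝓞 L) ∉ w.asIdeal →
    (∀ x : 𝓞 L, σ • x - x ∈ w.asIdeal) → σ ≠ 1 → ∀ α : 𝓞 M, α ^ 3 - 2 ∉ w.asIdeal.under (𝓞 M)

/-- the curve `E` over `k` becomes isomorphic over `K` to the curve `y² = x³ + 16 d³` -/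
def IsoOver (d : ℤ) (k K : Type) [Field k] [Field K] [Algebra k K] (E : WeierstrassCurve k) : Prop :=
  ∃ C : WeierstrassCurve.VariableChange K,
    C • E.map (algebraMap k K) = ⟨0, 0, 0, 0, 16 * (d : K) ^ 3⟩

/-- the curve `y² = x³ + 16 d³` over the rational numbers -/
def E (d : ℤ) : WeierstrassCurve ℚ := ⟨0, 0, 0, 0, 16 * (d : ℚ) ^ 3⟩

/-- `E(k)` is finitely generated of rank `r` -/
def HasRank {k : Type} [Field k] (E : WeierstrassCurve k) (r : ℕ) : Prop :=
  Module.Finite ℤ E.toAffine.Point ∧ Module.finrank ℤ E.toAffine.Point = r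

/-- the L-series of `E/k` continues analytically from `Re s > 3/2` to a connected open set containing
`1`, where its order of vanishing is `r` -/
def HasOrder {k : Type} [Field k] [NumberField k] (E : WeierstrassCurve k) (r : ℕ) : Prop :=
  ∃ (U : Set ℂ) (Φ : ℂ → ℂ),
    IsOpen U ∧ IsConnected U ∧ {s : ℂ | (3 / 2 : ℝ) < s.re} ⊆ U ∧ (1 : ℂ) ∈ U ∧
    AnalyticOnNhd ℂ Φ U ∧ (∀ s : ℂ, (3 / 2 : ℝ) < s.re → Φ s = E.LSeries s) ∧
    (∀ i : ℕ, i < r → iteratedDeriv i Φ 1 = 0) ∧ iteratedDeriv r Φ 1 ≠ 0

open Pool.Agent.K7.H70.TW (Ed)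

lemma hasRank {k : Type} [Field k] {E : WeierstrassCurve k} {r : ℕ} (hfg : AddGroup.FG E.toAffine.Point)
    (h : Module.finrank ℤ E.toAffine.Point = r) : HasRank E r :=
  ⟨Module.Finite.iff_addGroup_fg.2 hfg, h⟩

/-- the primes `v` of `M` with `N(v) ≤ X` and `N(v) ≡ 1` modulo `2 ^ (n + 1)` -/
def Primes (M : Type) [Field M] [NumberField M] (n X : ℕ) : Set (HeightOneSpectrum (𝓞 M)) :=
  {v | Ideal.absNorm v.asIdeal ≤ X ∧ 2 ^ (n + 1) ∣ Ideal.absNorm v.asIdeal - 1}

/-- there is a cyclic extension `K/M` of degree `2 ^ n` with `√-3` in `K`, totally ramified at `v` and unramified at the other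
primes, such that `d` generates a prime ideal in `K` and `K/M` satisfies the condition `GoodRam` -/
def HasField (d : ℤ) (M : Type) [Field M] [NumberField M] (n : ℕ) (v : HeightOneSpectrum (𝓞 M)) : Prop :=
  ∃ (K : Type) (_ : Field K) (_ : NumberField K) (_ : Algebra M K) (_ : IsGalois M K),
    IsCyclic Gal(K/M) ∧ Module.finrank M K = 2 ^ n ∧ GoodRam M K ∧
    (Ideal.span {(d : 𝓞 K)}).IsPrime ∧ (∃ ω : K, ω ^ 2 + ω + 1 = 0) ∧
    (∀ (w : HeightOneSpectrum (𝓞 K)) (σ : Gal(K/M)), (∀ x : 𝓞 K, σ • x - x ∈ w.asIdeal) → σ ≠ 1 →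
      w.asIdeal.under (𝓞 M) = v.asIdeal) ∧
    ∀ w : HeightOneSpectrum (𝓞 K), w.asIdeal.under (𝓞 M) = v.asIdeal →
      ∀ (σ : Gal(K/M)) (x : 𝓞 K), σ • x - x ∈ w.asIdeal

lemma hasField_iff {d : ℤ} {M : Type} [Field M] [NumberField M] {n : ℕ} {v : HeightOneSpectrum (𝓞 M)} :
    Pool.Agent.H98.Y.HasT d M n v ↔ HasField d M n v := Iff.rfl

/-- the number of the fields -/
theorem many {d : ℤ} (hd : Pool.Agent.H98.Q.Dd d) (M : Type) [Field M] [NumberField M]
    [IsCyclotomicExtension {3} ℚ M] (n : ℕ) (hn : n ≠ 0) :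
    (∀ B : ℕ, ∃ v : HeightOneSpectrum (𝓞 M), B < Ideal.absNorm v.asIdeal ∧ HasField d M n v) ∧
      ∀ c : ℝ, c < 1 / 3 → ∀ᶠ X : ℕ in Filter.atTop, (Primes M n X).Finite ∧ 0 < (Primes M n X).ncard ∧
        c * ((Primes M n X).ncard : ℝ) < ({v ∈ Primes M n X | HasField d M n v}.ncard : ℝ) := by
  have h2 : d.natAbs ≠ 2 := by
    have := hd.m4
    omega
  have h3 : 3 ∣ d.natAbs + 1 := by
    have := hd.m3
    omega
  refine ⟨fun B => ?_, fun c hc => ?_⟩
  · obtain ⟨v, h1, -, h2⟩ := Pool.Agent.H98.Y.infinite M hd.pr h2 h3 n hn B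
    exact ⟨v, h1, hasField_iff.1 h2⟩
  · filter_upwards [Pool.Agent.H98.Y.share M hd.pr h2 h3 n hn c hc] with X hX
    refine ⟨Pool.Agent.Q129.LQ.fin_le X _, hX.1, hX.2.trans_le ?_⟩
    rw [show {v ∈ Primes M n X | HasField d M n v} = {v : HeightOneSpectrum (𝓞 M) | Ideal.absNorm v.asIdeal ≤ X ∧
        2 ^ (n + 1) ∣ Ideal.absNorm v.asIdeal - 1 ∧ Pool.Agent.H98.Y.HasT d M n v} from ?_]
    ext v
    simp only [Primes, Set.mem_ofPred_eq, hasField_iff, and_assoc]

/-- **Main theorem.**  Let `d = ± q ≡ 1 (mod 4)` where `q ≡ 2 (mod 3)` is a prime number.  Let `ρ` be the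
rank of `E_d(ℚ)`, for `E_d : y² = x³ + 16 d³`, and `m` the order of vanishing of the L-series of `E_d/ℚ` at
`1`.  Then `m` is odd and `ρ ≤ 1`.

Let `L` be a Galois extension of `M = ℚ(√-3)` whose degree is a power of two, in which no prime of `M`
ramifies that is not above three and modulo which `2` is a cube.  Let `k ⊆ K ⊆ L` with `√-3 ∈ k`, such that `q`
generates a prime ideal of the ring of integers of `K`, and `E'` an elliptic curve over `k` which becomes
isomorphic over `K` to `y² = x³ + 16 d³`.  If `E'` is isomorphic over `k` to `y² = x³ + 16 d³`, then `E'(k)` is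
finitely generated of rank `2 ρ` and the order of vanishing of the L-series of `E'/k` at `1` is `2 m`.  If not,
then the rank of `E'(k)` is `0` and the order of vanishing is `0`.

Let `n ≥ 1`.  For infinitely many primes `v` of `M` there is such a field `K = L` which is cyclic of degree `2 ^ n` over `M`,
totally ramified at `v` and unramified at the other primes; and the lower density of these `v` among all the primes with
`N(v) ≡ 1` modulo `2 ^ (n + 1)` is at least `1 / 3`. -/
theorem result : ∀ d : ℤ, d.natAbs.Prime → d.natAbs % 3 = 2 → d % 4 = 1 →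
    (∃ m ρ : ℕ, Odd m ∧ ρ ≤ 1 ∧ HasRank (E d) ρ ∧ HasOrder (E d) m ∧
    ∀ (M L K k : Type) [Field M] [NumberField M] [IsCyclotomicExtension {3} ℚ M]
    [Field L] [NumberField L] [Algebra M L] [IsGalois M L] [Field K] [NumberField K] [Algebra K L]
    [Field k] [NumberField k] [Algebra k K],
    (∃ n : ℕ, Module.finrank M L = 2 ^ n) → GoodRam M L → (Ideal.span {(d : 𝓞 K)}).IsPrime →
    (∃ ω : k, ω ^ 2 + ω + 1 = 0) → ∀ E' : WeierstrassCurve k, IsoOver d k K E' →
      (IsoOver d k k E' → HasRank E' (2 * ρ) ∧ HasOrder E' (2 * m)) ∧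
      (¬ IsoOver d k k E' → HasRank E' 0 ∧ HasOrder E' 0)) ∧
    ∀ (M : Type) [Field M] [NumberField M] [IsCyclotomicExtension {3} ℚ M] (n : ℕ), n ≠ 0 →
      (∀ B : ℕ, ∃ v : HeightOneSpectrum (𝓞 M), B < Ideal.absNorm v.asIdeal ∧ HasField d M n v) ∧
      ∀ c : ℝ, c < 1 / 3 → ∀ᶠ X : ℕ in Filter.atTop, (Primes M n X).Finite ∧ 0 < (Primes M n X).ncard ∧
        c * ((Primes M n X).ncard : ℝ) < ({v ∈ Primes M n X | HasField d M n v}.ncard : ℝ) := by
  intro d h1 h2 h3
  have hd : Pool.Agent.H98.Q.Dd d := ⟨h1, h2, h3⟩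
  refine ⟨?_, fun M _ _ _ n hn => many hd M n hn⟩
  obtain ⟨m, cc, hm, hB⟩ := Pool.Agent.H98.W.lead_ex hd
  have hcyc : IsCyclotomicExtension {3} ℚ (CyclotomicField 3 ℚ) :=
    CyclotomicField.isCyclotomicExtension 3 ℚ
  have hlow := Pool.Agent.H98.W.low_Q hd (CyclotomicField 3 ℚ)
  have hE0 : E d = Ed (d : ℚ) := rfl
  rw [hE0]
  refine ⟨m, if Pool.Agent.H98.R.Tw d (CyclotomicField 3 ℚ) then 0 else 1, hm, by split_ifs <;> norm_num,
    ?_, (Pool.Agent.H98.W.lead_Q hd hB).1.bsd, ?_⟩
  · refine hasRank hlow.fg ?_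
    by_cases hT : Pool.Agent.H98.R.Tw d (CyclotomicField 3 ℚ)
    · rw [if_pos hT]
      exact hlow.zero hT
    · rw [if_neg hT]
      exact hlow.one hT
  intro M L K k _ _ _ _ _ _ _ _ _ _ _ _ _ hn hg h5 ⟨ω, hω⟩ E' ⟨C, hC⟩
  have hG : Pool.Agent.K7.H56.P.Gd M L := Pool.Agent.K7.H56.P.gd_of fun w hw h3 α hα => by
    obtain ⟨σ, hσ, hin⟩ := hw
    refine hg w σ (fun h => h3 ?_) hin hσ α hα
    show algebraMap (𝓞 M) (𝓞 L) 3 ∈ w.asIdeal
    rw [map_ofNat]
    exact h
  obtain ⟨g1, g2, g3⟩ := Pool.Agent.H98.R.main hd hm.pos hB.ord hn hG hω h5 E' C hC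
  have hiff : IsoOver d k k E' ↔
      ∃ C' : WeierstrassCurve.VariableChange k, C' • E' = ⟨0, 0, 0, 0, 16 * (d : k) ^ 3⟩ := by
    unfold IsoOver
    rw [Algebra.algebraMap_self, WeierstrassCurve.map_id]
  refine ⟨fun h => ?_, fun h => ?_⟩
  · obtain ⟨f1, f2⟩ := g2 (hiff.1 h)
    refine ⟨hasRank g1 ?_, f2⟩
    rw [f1]
    by_cases hT : Pool.Agent.H98.R.Tw d M
    · rw [if_pos hT, if_pos (Pool.Agent.H98.R.tw_base hd M (CyclotomicField 3 ℚ) hT)]
    · rw [if_neg hT, if_neg fun h' => hT (Pool.Agent.H98.R.tw_base hd (CyclotomicField 3 ℚ) M h')]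
  · obtain ⟨f1, f2⟩ := g3 fun h' => h (hiff.2 h')
    exact ⟨hasRank g1 (Pool.Agent.H98.A.rank_fin f1), f2⟩

end Pool.Agent.Results.MP_32c55d_nt.InertPrimeTwists
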