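import Pool.Agent.H23.JL.Const
import Pool.Agent.H23.JL.Rank

/-!
# The joint law of the products of Birch and Swinnerton-Dyer over several number fields

For an elliptic curve `E` over `ℚ` and a number field `K`, let `P_K(Y) = ∏ #E(k_v) / q_v` be the product of Birch and Swinnerton-Dyer
over the primes `v` of `K` with `q_v ≤ Y`; it should grow like a constant times `(log Y) ^ rank E(K)`. Here the products over all the
subfields of a number field are considered at the same time, for the family of the elliptic curves over `ℚ` with `r = 0, 1, 2` marked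
rational points, whose parameters run over any box of integers with sides at least `X ^ 5`.

Let `L` be a Galois extension of `ℚ` with the group `G`, let `F_1, ..., F_n` be subfields of `L` and let `H_j` be the group of `F_j` in
`G`. Then the processes `s ↦ (log P_{F_j}(exp ((log X) ^ s)) - (r + ν_j / 2) s log log X) / sqrt (log log X)`, `0 < s ≤ 1`, converge
jointly to correlated Brownian motions: the covariance at the times `s` and `t` of the `i`-th and the `j`-th one is
`|H_i \ G / H_j| min(s, t)`, and `ν_j` is the number of `σ` in `G` with `σ ^ 2 ∈ H_j`, divided by the order of `H_j`. In terms of the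
decomposition `L(E / F_j, s) = ∏ L(E, ρ, s) ^ n_j(ρ)` by the irreducible representations `ρ` of `G`, `n_j(ρ) = dim ρ ^ H_j`, the
covariance is `∑ n_i(ρ) n_j(ρ)`, and `ν_j = ∑ n_j(ρ) ε(ρ)` with the Frobenius-Schur indicators `ε(ρ) = 1, 0, -1`; so the bias
`log √2 ^ ε` that Goldfeld found for the products is ruled by the orthogonal or symplectic type of the twists.

The proof: the number of the points over the field with `p ^ 2` elements is expressed by that over the field with `p` elements, so the
product over the primes of `F_j` over `p` is, up to a summable error, `(1 + S / p) ^ a (1 + (2 p - S ^ 2) / p ^ 2) ^ b`, where `a` and `b`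
are the numbers of the primes of degree `1` and `2` over `p`; in terms of the Frobenius element `σ` of `p` these are the number of the
fixed points `π_j(σ)` of `σ` on `G / H_j`, and `(π_j(σ ^ 2) - π_j(σ)) / 2`. The sums over `p` of `π_i(σ) π_j(σ) / p` and
`π_j(σ ^ 2) / p` are found by the theorem of Mertens for the number fields belonging to `G / H_i × G / H_j` and to the unordered pairs of
elements of `G / H_j`. The residues modulo different primes `p` are asymptotically independent by the chinese remainder theorem, with
exponential moments for the large primes, and the theorem of Lévy on characteristic functions gives the limit.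
-/

set_option autoImplicit false

namespace Pool.Agent.Results.MP_32c55d_nt.JointLawOverFields

open Finset NumberField
open scoped NNReal

/-- The integer part of `exp ((log X) ^ s)`. -/
noncomputable def time (X : ℕ) (s : ℝ) : ℕ := ⌊Real.exp (Real.log X ^ s)⌋₊

/-- `(log P(exp ((log X) ^ s)) - m s log log X) / sqrt (log log X)` for the function `P`. -/
noncomputable def deviation (m : ℝ) (P : ℕ → ℝ) (X : ℕ) (s : ℝ) : ℝ :=
  (Real.log (P (time X s)) - m * s * Real.log (Real.log X)) / Real.sqrt (Real.log (Real.log X))

section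

variable {G : Type} [Group G]

/-- The number of the double cosets `H σ H'` of `G`. -/
noncomputable def double (H H' : Subgroup G) : ℝ := Nat.card (DoubleCoset.Quotient (H : Set G) (H' : Set G))

/-- The number of the `σ` in `G` with `σ ^ 2 ∈ H`, divided by the order of `H`. -/
noncomputable def roots (H : Subgroup G) : ℝ := (Nat.card {σ : G // σ ^ 2 ∈ H} : ℝ) / Nat.card H

end

/-- The distribution function of the Gaussian vector `(B_j(s))`, `j ∈ J`, `s ∈ I`, with mean `0` and the covariances
`R i j * min s t` of `B_i(s)` and `B_j(t)`: the probability that `B_j(s) ≤ x (j, s)` for all `j ∈ J` and `s ∈ I`. -/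
noncomputable def gaussian {J : Type} [Fintype J] [DecidableEq J] (R : J → J → ℝ) (I : Finset ℝ≥0) (x : J × I → ℝ) : ℝ :=
  (ProbabilityTheory.multivariateGaussian (0 : EuclideanSpace ℝ (J × I))
    (fun a b => R a.1 b.1 * ((min (a.2 : ℝ≥0) (b.2 : ℝ≥0) : ℝ≥0) : ℝ)) {y | ∀ a, y a ≤ x a}).toReal

open Classical in
/-- `E_n` is an elliptic curve over `K` with at least `r` independent `K`-rational points. -/
def RankAtLeast (K : Type) [Field K] [NumberField K] (r : ℕ) (n : Fin (r + 3) → ℤ) : Prop :=
  (Q282.NF.curve (Q282.NF.family r (fun i => (n i : 𝓞 K)))).IsElliptic ∧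
    (r : Cardinal) ≤ Module.rank ℤ (Q282.NF.curve (Q282.NF.family r (fun i => (n i : 𝓞 K)))).toAffine.Point

/-- The box of the integers `n k` with `N k ≤ n k < N k + M k` for all `k`. -/
noncomputable def box {κ : Type} [Fintype κ] [DecidableEq κ] (N : κ → ℤ) (M : κ → ℕ) : Finset (κ → ℤ) :=
  Fintype.piFinset fun k => Ico (N k) (N k + M k)

open Classical in
/-- The proportion of the `n` of the box with the property `P`. -/
noncomputable def proportion {κ : Type} [Fintype κ] [DecidableEq κ] (N : κ → ℤ) (M : κ → ℕ) (P : (κ → ℤ) → Prop) : ℝ :=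
  (((box N M).filter P).card : ℝ) / ∏ k, (M k : ℝ)

/-! ### Proofs -/

lemma proportion_eq {κ : Type} [Fintype κ] [DecidableEq κ] (N : κ → ℤ) (L : κ → ℕ) (P : (κ → ℤ) → Prop) [DecidablePred P] :
    proportion N L P = (((box N L).filter P).card : ℝ) / ∏ k, (L k : ℝ) := by
  classical
  unfold proportion
  congr 2
  refine congrArg Finset.card ?_
  ext t
  simp only [mem_filter]

/-- intersection with the rank condition -/
lemma with_rank {κ : Type} [Fintype κ] [DecidableEq κ] (N : κ → ℤ) (L : κ → ℕ) (hL : 0 < ∏ k, (L k : ℝ)) (P R : (κ → ℤ) → Prop) (w ε : ℝ)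
    (h1 : |proportion N L P - w| ≤ ε / 2) (h2 : proportion N L (fun n => ¬ R n) ≤ ε / 2) :
    |proportion N L (fun n => R n ∧ P n) - w| ≤ ε := by
  classical
  have h6 : proportion N L (fun n => R n ∧ P n) ≤ proportion N L P := by
    rw [proportion_eq, proportion_eq]
    refine div_le_div_of_nonneg_right ?_ hL.le
    have : (box N L).filter (fun n => R n ∧ P n) ⊆ (box N L).filter P := by
      intro t ht
      rw [mem_filter] at ht ⊢
      exact ⟨ht.1, ht.2.2⟩
    exact_mod_cast card_le_card this
  have h7 : proportion N L P ≤ proportion N L (fun n => R n ∧ P n) + proportion N L (fun n => ¬ R n) := by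
    rw [proportion_eq, proportion_eq, proportion_eq, ← add_div]
    refine div_le_div_of_nonneg_right ?_ hL.le
    have : (box N L).filter P ⊆ (box N L).filter (fun n => R n ∧ P n) ∪ (box N L).filter (fun n => ¬ R n) := by
      intro t ht
      rw [mem_filter] at ht
      rw [mem_union, mem_filter, mem_filter]
      by_cases hR : R t
      · exact Or.inl ⟨ht.1, hR, ht.2⟩
      · exact Or.inr ⟨ht.1, hR⟩
    exact_mod_cast (card_le_card this).trans (card_union_le _ _)
  have h10 := abs_le.1 h1
  rw [abs_le]
  constructor <;> linarith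

/-- the limit law -/
lemma gaussian_eq {J : Type} [Fintype J] [DecidableEq J] (R : Matrix J J ℝ) (I : Finset ℝ≥0) (x : J × I → ℝ) :
    gaussian R I x = Q282.MJ.WJ R I x := rfl

/-- Let `L` be a Galois number field with the group `G` over `ℚ`, let `F j`, `j ∈ J`, be finitely many subfields of `L`, and let `H j` be
the subgroup of `G` that fixes `F j`. Let `r = 0, 1, 2`, let `I` be a finite set of times `s` with `0 < s ≤ 1`, let `x (j, s)` be real
numbers, and `ε > 0`. Then there is an `X₁` with the following property.

Let `X ≥ X₁` be an integer and let a box `N i ≤ n i < N i + M i`, `i = 1, ..., r + 3`, be given all sides `M i` of which are at least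
`X ^ 5`. Consider the `n` of the box for which, with `(u, v, w) = family r n`, the curve `E_n : y ^ 2 = x ^ 3 + u x ^ 2 + v x + w` is an
elliptic curve of rank at least `r` over every number field, and for all `j ∈ J` and `s ∈ I` one has
`(log P_j(exp ((log X) ^ s)) - (r + ν_j / 2) s log log X) / sqrt (log log X) ≤ x (j, s)`; here `P_j(Y)` is the product of the
`#E_n(k_v) / q_v` over the primes `v` of `F j` with `q_v ≤ Y` not dividing twice the discriminant, and `ν_j` is the number of the
`σ ∈ G` with `σ ^ 2 ∈ H j`, divided by the order of `H j`. The proportion of these `n` in the box differs by at most `ε` from the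
probability that `B_j(s) ≤ x (j, s)` for all `j ∈ J` and `s ∈ I`, where the `B_j` are correlated Brownian motions: the covariance of
`B_i(s)` and `B_j(t)` is `min(s, t)` times the number of the double cosets `H i \ G / H j`. -/
theorem result (L : Type) [Field L] [NumberField L] [IsGalois ℚ L] {J : Type} [Fintype J] [DecidableEq J] (F : J → IntermediateField ℚ L)
    (r : ℕ) (hr : r ≤ 2) (I : Finset ℝ≥0) (hI : ∀ s ∈ I, 0 < s ∧ s ≤ 1) (x : J × I → ℝ) (ε : ℝ) (hε : 0 < ε) :
    ∃ X₁ : ℕ, ∀ X : ℕ, X₁ ≤ X → ∀ (N : Fin (r + 3) → ℤ) (M : Fin (r + 3) → ℕ), (∀ i, X ^ 5 ≤ M i) →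
      |proportion N M (fun n => (∀ (K : Type) [Field K] [NumberField K], RankAtLeast K r n) ∧ ∀ a : J × I,
          deviation (r + roots (F a.1).fixingSubgroup / 2) (Q282.NF.product (Q282.NF.family r (fun i => (n i : 𝓞 (F a.1))))) X (a.2 : ℝ≥0) ≤ x a) -
        gaussian (fun i j => double (F i).fixingSubgroup (F j).fixingSubgroup) I x| ≤ ε := by
  classical
  obtain ⟨H, hH⟩ : ∃ H : J → Subgroup Gal(L/ℚ), F = fun j => IntermediateField.fixedField (H j) :=
    ⟨fun j => (F j).fixingSubgroup, funext fun j => (IsGalois.fixedField_fixingSubgroup (F j)).symm⟩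
  subst hH
  have e1 : ∀ j, (IntermediateField.fixedField (H j)).fixingSubgroup = H j := fun j => IntermediateField.fixingSubgroup_fixedField (H j)
  have e2 : (fun i j => double (IntermediateField.fixedField (H i)).fixingSubgroup (IntermediateField.fixedField (H j)).fixingSubgroup) =
      H23.JL.covG H := by
    funext i j
    rw [e1, e1, H23.JL.cov_double]
    rfl
  have e3 : ∀ j, roots (IntermediateField.fixedField (H j)).fixingSubgroup =
      H23.JL.gav Gal(L/ℚ) (fun g => H23.JL.fx (Gal(L/ℚ) ⧸ H j) (g ^ 2)) := by
    intro j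
    rw [e1, H23.JL.sq_mean]
    rfl
  obtain ⟨h1, h2⟩ := H23.JL.sums_fixed L H
  obtain ⟨h3, h4⟩ := H23.JL.cov_psd H
  obtain ⟨X₁, hX₁⟩ := H23.JL.law_gen (fun j => IntermediateField.fixedField (H j)) (H23.JL.covG H) _ h3 h4 h1 h2 r hr I hI x (ε / 2)
    (by positivity)
  obtain ⟨X₂, hX₂⟩ := H23.JL.rank_Q r hr (ε / 2) (by positivity)
  refine ⟨max 1 (max X₁ X₂), fun X hX N M hM => ?_⟩
  have hX0 : 1 ≤ X := (le_max_left _ _).trans hX
  have hX1 : X₁ ≤ X := (le_max_left _ _).trans ((le_max_right _ _).trans hX)
  have hX2 : X₂ ≤ X := (le_max_right _ _).trans ((le_max_right _ _).trans hX)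
  have hM1 : ∀ k, (X : ℝ) ^ 5 ≤ M k := fun k => by exact_mod_cast hM k
  have hM2 : ∀ k, (X : ℝ) ≤ M k := fun k => by
    refine le_trans ?_ (hM1 k)
    have h5 : (1 : ℝ) ≤ X := by exact_mod_cast hX0
    calc (X : ℝ) = (X : ℝ) ^ 1 := (pow_one _).symm
      _ ≤ _ := pow_le_pow_right₀ h5 (by norm_num)
  have hP0 : 0 < ∏ k, (M k : ℝ) := prod_pos fun k _ => by
    have h5 : (1 : ℝ) ≤ X := by exact_mod_cast hX0
    linarith [hM2 k]
  refine with_rank N M hP0 _ _ _ ε ?_ ?_
  · rw [proportion_eq, e2, gaussian_eq]
    have h5 := hX₁ X hX1 N M hM1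
    have e4 : (box N M).filter (fun n => ∀ a : J × I,
        deviation (r + roots (IntermediateField.fixedField (H a.1)).fixingSubgroup / 2)
          (Q282.NF.product (Q282.NF.family r (fun i => (n i : 𝓞 (IntermediateField.fixedField (H a.1)))))) X (a.2 : ℝ≥0) ≤ x a) =
        (Q282.GK.kbox N M).filter fun t => ∀ a : J × I,
        (Real.log (Q282.NF.product (Q282.NF.family r (fun i => (t i : 𝓞 (IntermediateField.fixedField (H a.1))))) (Q282.CL.tm X (a.2 : ℝ≥0))) -
          (r + H23.JL.gav Gal(L/ℚ) (fun g => H23.JL.fx (Gal(L/ℚ) ⧸ H a.1) (g ^ 2)) / 2) * ((a.2 : ℝ≥0) : ℝ) * Real.log (Real.log X)) /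
            Real.sqrt (Real.log (Real.log X)) ≤ x a := by
      ext n
      rw [mem_filter, mem_filter]
      refine and_congr Iff.rfl (forall_congr' fun a => ?_)
      rw [e3]
      rfl
    rw [e4]
    exact h5
  · rw [proportion_eq, div_le_iff₀ hP0]
    refine hX₂ X hX2 N M hM2 _ (filter_subset _ _) fun n hn hOk => ?_
    exact (mem_filter.1 hn).2 fun K _ _ => H23.JL.ok_up r n hOk K

end Pool.Agent.Results.MP_32c55d_nt.JointLawOverFields
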