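import Pool.Agent.H98.A.Main
import Pool.Agent.H98.Y.Twr

/-!
# The Birch and Swinnerton-Dyer rank conjecture for curves of rank two over number fields of
# unbounded degree

Let `M = ℚ(√-3)` and let `L/M` be ANY Galois extension whose degree is a power of two, in which the
primes of `M` do not ramify that are not above three and modulo which `2` is a cube (the primes above
two are among them; there is no condition at the prime above three).  Let `k ⊆ K ⊆ L` be ANY
intermediate fields with `√-3 ∈ k` such that the prime number five is inert in `K`.  Let `E` be ANY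
elliptic curve over `k` which becomes isomorphic over `K` to the curve `y² = x³ + 2000`, the quadratic
twist by five of `y² + y = x³`.  Then

* the rank of `E(k)` is two if `E` is isomorphic over `k` to `y² = x³ + 2000`, and zero otherwise;
* the L-series of `E/k` continues analytically from `Re s > 3/2` to a connected open set containing `1`,
  where its order of vanishing is equal to the rank of `E(k)`.

There are many such fields, of unbounded degree (second part of the theorem; by class field theory and Chebotarev's
theorem): let `n ≥ 1`.  For infinitely many primes `v` of `M`, and more precisely for at least a third of all the primes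
`v` of `M` with `N(v) ≡ 1` modulo `2 ^ (n + 1)` (lower density, the primes being ordered by their norms), there is such a
field `K = L` which is cyclic of degree `2 ^ n` over `M`, totally ramified at `v` and unramified at the other primes.
All the subfields `k ⊇ M` are possible.  In general the fields `k` and `K` need not be normal over `ℚ` or over `M`.

The proof.  The values at `s = 1` of the L-functions of the curve `y² + y = x³` twisted by the quadratic
characters with one bad prime (a prime modulo which `2` is a cube) satisfy a congruence modulo four above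
two: this gives the non-vanishing of the new part of the L-function along every quadratic step of the
tower, when five stays inert and the L-function vanishes at `1` on the lower level, and the order of
vanishing is the same on all levels.  At the bottom the derivative at `1` of the L-function of
`y² = x³ + 2000` over `ℚ(√-3)` is bounded from below, numerically.  The rank is computed by a
2-descent: the points `Q₀ = (20, 100)` and `Q₁ = (20 ω, 100)` generate the group modulo two.
-/

set_option autoImplicit false

open NumberField IsDedekindDomain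
open scoped Classical

namespace Pool.Agent.Results.MP_32c55d_nt.PositiveRankTowers

/-- above the prime numbers other than three, only primes modulo which `2` is not a cube ramify in
`L/M`: if `σ ≠ 1` lies in the inertia group of the prime `w` of `L`, and `w` does not divide three, then
`2` is not a cube modulo the prime of `M` below `w` -/
def GoodRam (M L : Type) [Field M] [NumberField M] [Field L] [NumberField L] [Algebra M L] : Prop :=
  ∀ (w : HeightOneSpectrum (𝓞 L)) (σ : Gal(L/M)), (3 : 𝓞 L) ∉ w.asIdeal →
    (∀ x : 𝓞 L, σ • x - x ∈ w.asIdeal) → σ ≠ 1 → ∀ α : 𝓞 M, α ^ 3 - 2 ∉ w.asIdeal.under (𝓞 M)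

/-- the curve `E` over `k` becomes isomorphic over `K` to the curve `y² = x³ + 2000` -/
def IsoOver (k K : Type) [Field k] [Field K] [Algebra k K] (E : WeierstrassCurve k) : Prop :=
  ∃ C : WeierstrassCurve.VariableChange K, C • E.map (algebraMap k K) = ⟨0, 0, 0, 0, 2000⟩

/-- the primes `v` of `M` with `N(v) ≤ X` and `N(v) ≡ 1` modulo `2 ^ (n + 1)` -/
def Primes (M : Type) [Field M] [NumberField M] (n X : ℕ) : Set (HeightOneSpectrum (𝓞 M)) :=
  {v | Ideal.absNorm v.asIdeal ≤ X ∧ 2 ^ (n + 1) ∣ Ideal.absNorm v.asIdeal - 1}

/-- there is a cyclic extension `K/M` of degree `2 ^ n` with `√-3` in `K`, totally ramified at `v` and unramified at the other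
primes, such that five is inert in `K` and `K/M` satisfies the condition `GoodRam` -/
def HasField (M : Type) [Field M] [NumberField M] (n : ℕ) (v : HeightOneSpectrum (𝓞 M)) : Prop :=
  ∃ (K : Type) (_ : Field K) (_ : NumberField K) (_ : Algebra M K) (_ : IsGalois M K),
    IsCyclic Gal(K/M) ∧ Module.finrank M K = 2 ^ n ∧ GoodRam M K ∧
    (Ideal.span {(5 : 𝓞 K)}).IsPrime ∧ (∃ ω : K, ω ^ 2 + ω + 1 = 0) ∧
    (∀ (w : HeightOneSpectrum (𝓞 K)) (σ : Gal(K/M)), (∀ x : 𝓞 K, σ • x - x ∈ w.asIdeal) → σ ≠ 1 →
      w.asIdeal.under (𝓞 M) = v.asIdeal) ∧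
    ∀ w : HeightOneSpectrum (𝓞 K), w.asIdeal.under (𝓞 M) = v.asIdeal →
      ∀ (σ : Gal(K/M)) (x : 𝓞 K), σ • x - x ∈ w.asIdeal

lemma hasField_iff {M : Type} [Field M] [NumberField M] {n : ℕ} {v : HeightOneSpectrum (𝓞 M)} :
    Pool.Agent.H98.Y.HasT 5 M n v ↔ HasField M n v := by
  unfold Pool.Agent.H98.Y.HasT
  simp only [Int.cast_ofNat]
  exact Iff.rfl

/-- **Main theorem.**  Let `L` be a Galois extension of `M = ℚ(√-3)` whose degree is a power of two, in
which no prime of `M` ramifies that is not above three and modulo which `2` is a cube.  Let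
`k ⊆ K ⊆ L` with `√-3 ∈ k`, such that five generates a prime ideal of the ring of integers of `K`, and `E`
an elliptic curve over `k` which becomes isomorphic over `K` to `y² = x³ + 2000`.  Then `E(k)` is finitely
generated, of rank two if `E` is isomorphic over `k` to `y² = x³ + 2000` and of rank zero otherwise, and
the L-series of `E/k` continues analytically from `Re s > 3/2` to a connected open set containing `1`,
where its order of vanishing is equal to the rank of `E(k)`.

Let `n ≥ 1`.  For infinitely many primes `v` of `M` there is such a field `K = L` which is cyclic of degree `2 ^ n` over `M`,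
totally ramified at `v` and unramified at the other primes; and the lower density of these `v` among all the primes with
`N(v) ≡ 1` modulo `2 ^ (n + 1)` is at least `1 / 3`. -/
theorem result : (∀ (M L K k : Type) [Field M] [NumberField M] [IsCyclotomicExtension {3} ℚ M]
    [Field L] [NumberField L] [Algebra M L] [IsGalois M L] [Field K] [NumberField K] [Algebra K L]
    [Field k] [NumberField k] [Algebra k K],
    (∃ n : ℕ, Module.finrank M L = 2 ^ n) → GoodRam M L → (Ideal.span {(5 : 𝓞 K)}).IsPrime →
    (∃ ω : k, ω ^ 2 + ω + 1 = 0) → ∀ E : WeierstrassCurve k, IsoOver k K E →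
      Module.Finite ℤ E.toAffine.Point ∧
      (IsoOver k k E → Module.finrank ℤ E.toAffine.Point = 2) ∧
      (¬ IsoOver k k E → Module.finrank ℤ E.toAffine.Point = 0) ∧
      ∃ (U : Set ℂ) (Φ : ℂ → ℂ),
        IsOpen U ∧ IsConnected U ∧ {s : ℂ | (3 / 2 : ℝ) < s.re} ⊆ U ∧ (1 : ℂ) ∈ U ∧
        AnalyticOnNhd ℂ Φ U ∧ (∀ s : ℂ, (3 / 2 : ℝ) < s.re → Φ s = E.LSeries s) ∧
        (∀ r : ℕ, r < Module.finrank ℤ E.toAffine.Point → iteratedDeriv r Φ 1 = 0) ∧
        iteratedDeriv (Module.finrank ℤ E.toAffine.Point) Φ 1 ≠ 0) ∧
    ∀ (M : Type) [Field M] [NumberField M] [IsCyclotomicExtension {3} ℚ M] (n : ℕ), n ≠ 0 →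
      (∀ B : ℕ, ∃ v : HeightOneSpectrum (𝓞 M), B < Ideal.absNorm v.asIdeal ∧ HasField M n v) ∧
      ∀ c : ℝ, c < 1 / 3 → ∀ᶠ X : ℕ in Filter.atTop, (Primes M n X).Finite ∧ 0 < (Primes M n X).ncard ∧
        c * ((Primes M n X).ncard : ℝ) < ({v ∈ Primes M n X | HasField M n v}.ncard : ℝ) := by
  refine ⟨?_, fun M _ _ _ n hn => ⟨fun B => ?_, fun c hc => ?_⟩⟩
  rotate_left
  · obtain ⟨v, h1, -, h2⟩ := Pool.Agent.H98.Y.infinite M (d := 5) (by norm_num) (by norm_num) (by norm_num) n hn B
    exact ⟨v, h1, hasField_iff.1 h2⟩
  · filter_upwards [Pool.Agent.H98.Y.share M (d := 5) (by norm_num) (by norm_num) (by norm_num) n hn c hc] with X hX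
    refine ⟨Pool.Agent.Q129.LQ.fin_le X _, hX.1, hX.2.trans_le ?_⟩
    rw [show {v ∈ Primes M n X | HasField M n v} = {v : HeightOneSpectrum (𝓞 M) | Ideal.absNorm v.asIdeal ≤ X ∧
        2 ^ (n + 1) ∣ Ideal.absNorm v.asIdeal - 1 ∧ Pool.Agent.H98.Y.HasT 5 M n v} from ?_]
    ext v
    simp only [Primes, Set.mem_ofPred_eq, hasField_iff, and_assoc]
  intro M L K k _ _ _ _ _ _ _ _ _ _ _ _ _ hn hg h5 ⟨ω, hω⟩ E ⟨C, hC⟩
  have hG : Pool.Agent.K7.H56.P.Gd M L := Pool.Agent.K7.H56.P.gd_of fun w hw h3 α hα => by
    obtain ⟨σ, hσ, hin⟩ := hw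
    refine hg w σ (fun h => h3 ?_) hin hσ α hα
    show algebraMap (𝓞 M) (𝓞 L) 3 ∈ w.asIdeal
    rw [map_ofNat]
    exact h
  obtain ⟨h1, h2, h3, h4⟩ := Pool.Agent.H98.A.main hn hG hω h5 E C hC
  have hiff : IsoOver k k E ↔ ∃ C' : WeierstrassCurve.VariableChange k, C' • E = ⟨0, 0, 0, 0, 2000⟩ := by
    unfold IsoOver
    rw [Algebra.algebraMap_self, WeierstrassCurve.map_id]
  refine ⟨Module.Finite.iff_addGroup_fg.2 h1, fun h => h2 (hiff.1 h), fun h => ?_, h4⟩
  exact Pool.Agent.H98.A.rank_fin (h3 fun h' => h (hiff.2 h'))

end Pool.Agent.Results.MP_32c55d_nt.PositiveRankTowers
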